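import Pool.Agent.Helper67.FN.Thin
import Mathlib.RingTheory.AlgebraicIndependent.TranscendenceBasis
import Mathlib.Combinatorics.Matroid.Rank.ENat

/-!
# Exponentials which are algebraic over `K(t)`
-/

set_option autoImplicit false

namespace Pool.Agent.Helper67.FN

open Complex
open Pool.Agent.R347.LW Pool.Agent.R347.SX

variable {q : ℕ → ℕ} (hq : ∀ k, 2 ≤ q k)

include hq

/-- the matroid of algebraic independence over `K` -/
noncomputable def MK : Matroid ℂ := AlgebraicIndependent.matroid (UK hq) ℂ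

theorem MK_indep {ι : Type} {x : ι → ℂ} (h : AlgebraicIndependent (UK hq) x) :
    (MK hq).Indep (Set.range x) := by
  unfold MK
  rw [AlgebraicIndependent.matroid_indep_iff]
  exact h.coe_range

theorem range_encard {n : ℕ} {x : Fin n → ℂ} (h : AlgebraicIndependent (UK hq) x) :
    (Set.range x).encard = n := by
  rw [← Set.image_univ, h.injective.encard_image, Set.encard_univ]
  simp

/-- exponentials of linearly independent elements of `K` in the closure of a small set -/
theorem exp_closure {n : ℕ} (ζ : Fin n → UK hq) (hζ : LinearIndependent ℚ ζ) (S : Set ℂ)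
    (h : ∀ i, exp (ζ i : ℂ) ∈ (MK hq).closure S) : (n : ℕ∞) ≤ S.encard := by
  have h1 := algIndU hq n ζ hζ
  have h2 := MK_indep hq h1
  have h3 : Set.range (fun i => exp (ζ i : ℂ)) ⊆ (MK hq).closure S := by
    rintro _ ⟨i, rfl⟩
    exact h i
  have h4 := h2.encard_le_eRk_of_subset h3
  rw [range_encard hq h1, Matroid.eRk_closure_eq] at h4
  exact h4.trans ((MK hq).eRk_le_encard S)

theorem closure_iff (S : Set ℂ) (z : ℂ) :
    z ∈ (MK hq).closure S ↔ IsAlgebraic (Algebra.adjoin (UK hq) S) z := by
  unfold MK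
  rw [AlgebraicIndependent.matroid_closure_eq]
  rfl

/-- elements outside of `K` are transcendental over `K` -/
theorem transcendental {t : ℂ} (ht : ¬ Appr q t) : Transcendental (UK hq) t := by
  have := UK_closed hq
  intro h2
  obtain ⟨z, hz⟩ := minpoly.mem_range_of_degree_eq_one (UK hq) t
    (IsAlgClosed.degree_eq_one_of_irreducible (UK hq) (minpoly.irreducible h2.isIntegral))
  exact ht (hz ▸ z.2)

theorem indep_single {t : ℂ} (ht : ¬ Appr q t) : (MK hq).Indep {t} := by
  have h1 : AlgebraicIndependent (UK hq) (fun _ : Unit => t) := by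
    rw [algebraicIndependent_unique_type_iff]
    exact transcendental hq ht
  have h2 := MK_indep hq h1
  rwa [Set.range_const] at h2

/-- two dependent numbers -/
theorem mem_closure_of {t a : ℂ} (ht : ¬ Appr q t)
    (h : ¬ AlgebraicIndependent (UK hq) ![t, a]) : a ∈ (MK hq).closure {t} := by
  by_contra hcon
  have h1 := (indep_single hq ht).notMem_closure_iff (e := a) (by unfold MK; exact Set.mem_univ _)
  obtain ⟨h2, h3⟩ := h1.1 hcon
  apply h
  unfold MK at h2
  rw [AlgebraicIndependent.matroid_indep_iff] at h2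
  have h4 : AlgebraicIndependent (UK hq) ((↑) : (insert a {t} : Set ℂ) → ℂ) := h2
  have h5 := h4.comp (![⟨t, by simp⟩, ⟨a, by simp⟩] : Fin 2 → (insert a {t} : Set ℂ)) (by
    have hat : a ≠ t := fun h => h3 (by rw [h]; exact Set.mem_singleton _)
    intro i j hij
    fin_cases i <;> fin_cases j <;> simp at hij ⊢
    · exact hat hij.symm
    · exact hat hij)
  convert h5 using 1
  funext i
  fin_cases i <;> rfl

/-- **A number `t` outside of `K` is algebraically independent of `e ^ ζ` for all `ζ ∈ K` outside of one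
line over `ℚ`.** -/
theorem line {t : ℂ} (ht : ¬ Appr q t) : ∃ ζ₀ : ℂ, Appr q ζ₀ ∧ ∀ ζ : ℂ, Appr q ζ →
    (∀ r : ℚ, ζ ≠ r * ζ₀) → AlgebraicIndependent (UK hq) ![t, exp ζ] := by
  by_cases h : ∃ ζ₀ : ℂ, Appr q ζ₀ ∧ ζ₀ ≠ 0 ∧ exp ζ₀ ∈ (MK hq).closure {t}
  · obtain ⟨ζ₀, h1, h2, h3⟩ := h
    refine ⟨ζ₀, h1, fun ζ hζ hr => ?_⟩
    by_contra hcon
    have h4 := mem_closure_of hq ht hcon
    set z₀ : UK hq := ⟨ζ₀, h1⟩ with hz₀
    set z : UK hq := ⟨ζ, hζ⟩ with hz
    have h5 : LinearIndependent ℚ ![z₀, z] := by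
      rw [LinearIndependent.pair_iff' (fun h => h2 (congrArg Subtype.val h))]
      intro r h
      apply hr r
      have h6 := congrArg (fun u : UK hq => (u : ℂ)) h
      simp only [hz₀, hz] at h6
      rw [← h6, Algebra.smul_def]
      rfl
    have h6 := exp_closure hq _ h5 {t} (by
      intro i
      fin_cases i
      · exact h3
      · exact h4)
    rw [Set.encard_singleton] at h6
    exact absurd h6 (by decide)
  · push Not at h
    refine ⟨0, Appr.zero hq, fun ζ hζ hr => ?_⟩
    by_contra hcon
    have h4 := mem_closure_of hq ht hcon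
    refine h ζ hζ ?_ h4
    intro h0
    exact hr 0 (by rw [h0]; simp)

end Pool.Agent.Helper67.FN
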