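import Pool.Graph.R_seed8.R347.SX.Trans

/-!
# Lower bounds for integer combinations of exponentials of well approximable numbers
-/

set_option autoImplicit false

namespace Pool.Agent.Helper67.FN

open Finset Complex
open Pool.Agent.R347.LW Pool.Agent.R347.SX
open Pool.Agent.R347.GS (NE NE.const NE.mul NE.add NE.pow)

variable {q : ℕ → ℕ} (hq : ∀ k, 2 ≤ q k)

include hq

/-- A bound for all large `k` and linear independence give a bound for all `k`. -/
theorem low_of_large {n : ℕ} (y : Fin n → ℂ)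
    (hy : ∀ c : Fin n → ℤ, ∑ m, (c m : ℂ) * y m = 0 → c = 0)
    (h : ∀ h : ℕ, ∃ κ k₀ : ℕ, ∀ k ≥ k₀, ∀ c : Fin n → ℤ, c ≠ 0 →
      (∀ m, |c m| ≤ tow h (q k)) → ((tow κ (q k) : ℕ) : ℝ)⁻¹ < ‖∑ m, (c m : ℂ) * y m‖) :
    Low q y := by
  classical
  intro h'
  obtain ⟨κ₁, k₀, h1⟩ := h h'
  -- one value
  have hone : ∀ (k : ℕ) (v : ℝ), 0 < v → ∃ κ : ℕ, ∀ κ' ≥ κ, ((tow κ' (q k) : ℕ) : ℝ)⁻¹ < v := by
    intro k v hv
    obtain ⟨κ, hκ⟩ := exists_nat_gt v⁻¹
    refine ⟨κ, fun κ' hκ' => ?_⟩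
    have h2 : κ ≤ tow κ' (q k) := by
      have := le_tow κ' (q k)
      omega
    have h3 : v⁻¹ < ((tow κ' (q k) : ℕ) : ℝ) := hκ.trans_le (by exact_mod_cast h2)
    have h4 : 0 < v⁻¹ := inv_pos.2 hv
    rw [inv_lt_comm₀ (h4.trans h3) hv]
    exact h3
  -- one `k`
  have hk : ∀ k : ℕ, ∃ κ : ℕ, ∀ κ' ≥ κ, ∀ c : Fin n → ℤ, c ≠ 0 → (∀ m, |c m| ≤ tow h' (q k)) →
      ((tow κ' (q k) : ℕ) : ℝ)⁻¹ < ‖∑ m, (c m : ℂ) * y m‖ := by
    intro k
    set F : Finset (Fin n → ℤ) := Fintype.piFinset fun _ =>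
      Finset.Icc (-(tow h' (q k) : ℤ)) (tow h' (q k)) with hF
    have h2 : ∀ c : Fin n → ℤ, ∃ κ : ℕ, c ≠ 0 → ∀ κ' ≥ κ,
        ((tow κ' (q k) : ℕ) : ℝ)⁻¹ < ‖∑ m, (c m : ℂ) * y m‖ := by
      intro c
      by_cases hc : c = 0
      · exact ⟨0, fun h => absurd hc h⟩
      · have h3 : 0 < ‖∑ m, (c m : ℂ) * y m‖ := norm_pos_iff.2 fun h0 => hc (hy c h0)
        obtain ⟨κ, hκ⟩ := hone k _ h3
        exact ⟨κ, fun _ => hκ⟩
    choose K hK using h2
    refine ⟨F.sup K, fun κ' hκ' c hc hcB => ?_⟩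
    refine hK c hc κ' (le_trans ?_ hκ')
    refine le_sup (f := K) ?_
    rw [hF, Fintype.mem_piFinset]
    intro m
    rw [Finset.mem_Icc]
    exact abs_le.1 (hcB m)
  choose K hK using hk
  refine ⟨max κ₁ ((Finset.range k₀).sup K), fun k c hc hcB => ?_⟩
  by_cases hkk : k₀ ≤ k
  · refine lt_of_le_of_lt ?_ (h1 k hkk c hc hcB)
    have t1 : tow κ₁ (q k) ≤ tow (max κ₁ ((Finset.range k₀).sup K)) (q k) :=
      tow_mono_left (le_max_left _ _) _
    have t2 : 0 < tow κ₁ (q k) := by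
      have := le_tow κ₁ (q k)
      have := hq k
      omega
    exact inv_anti₀ (by exact_mod_cast t2) (by exact_mod_cast t1)
  · exact hK k _ (le_trans (le_sup (f := K) (Finset.mem_range.2 (by omega))) (le_max_right _ _))
      c hc hcB

theorem appr_int (c : ℤ) : Appr q (c : ℂ) := by
  have h := Appr.rat hq (c : ℚ)
  push_cast at h
  exact h

/-- **Lower bounds for integer combinations of `λ e ^ w_i`**, for different well approximable numbers
`w_i`. -/
theorem low_exp {n : ℕ} (w : Fin n → ℂ) (hw : ∀ i, Appr q (w i)) (hinj : Function.Injective w)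
    (lam : ℂ) (hlam : lam ≠ 0) : Low q (fun i => lam * exp (w i)) := by
  classical
  refine low_of_large hq _ (fun c hc => ?_) fun h => ?_
  · have h1 : ∑ m, (c m : ℂ) * exp (w m) = 0 := by
      have h2 : ∑ m, (c m : ℂ) * (lam * exp (w m)) = lam * ∑ m, (c m : ℂ) * exp (w m) := by
        rw [mul_sum]
        refine sum_congr rfl fun m _ => ?_
        ring
      rw [h2] at hc
      exact (mul_eq_zero.1 hc).resolve_left hlam
    funext m
    have h3 := lwU hq n w (fun i => (c i : ℂ)) hw (fun i => appr_int hq _) hinj h1 m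
    exact_mod_cast h3
  choose hwh hwA using hw
  obtain ⟨κ₂, hκ₂⟩ := quantE
  set H : ℕ := ∑ i, hwh i + n + h with hH
  have hHw : ∀ i, hwh i ≤ H := fun i => by
    have := Finset.single_le_sum (f := fun i => hwh i) (fun _ _ => Nat.zero_le _)
      (Finset.mem_univ i)
    omega
  -- the distances
  obtain ⟨δ, hδ0, hδ1, hδw⟩ : ∃ δ : ℝ, 0 < δ ∧ δ ≤ 1 ∧ ∀ i j, i ≠ j → 2 * δ < ‖w i - w j‖ := by
    have h1 : ∀ P : Finset (Fin n × Fin n), ∃ δ : ℝ, 0 < δ ∧ δ ≤ 1 ∧
        ∀ x ∈ P, x.1 ≠ x.2 → 2 * δ < ‖w x.1 - w x.2‖ := by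
      intro P
      induction P using Finset.induction_on with
      | empty => exact ⟨1, one_pos, le_rfl, by simp⟩
      | insert x P hx ih =>
        obtain ⟨δ, h0, h1, h3⟩ := ih
        by_cases hx2 : x.1 = x.2
        · refine ⟨δ, h0, h1, fun y hy hne => ?_⟩
          rcases Finset.mem_insert.1 hy with rfl | hy
          · exact absurd hx2 hne
          · exact h3 y hy hne
        · have h4 : 0 < ‖w x.1 - w x.2‖ := norm_pos_iff.2 (sub_ne_zero.2 fun h => hx2 (hinj h))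
          refine ⟨min δ (‖w x.1 - w x.2‖ / 4), by positivity, (min_le_left _ _).trans h1,
            fun y hy hne => ?_⟩
          rcases Finset.mem_insert.1 hy with rfl | hy
          · have := min_le_right δ (‖w y.1 - w y.2‖ / 4)
            linarith
          · have := min_le_left δ (‖w x.1 - w x.2‖ / 4)
            have := h3 y hy hne
            linarith
    obtain ⟨δ, h0, h1, h3⟩ := h1 Finset.univ
    exact ⟨δ, h0, h1, fun i j hij => h3 (i, j) (Finset.mem_univ _) hij⟩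
  set B : ℝ := ∑ i, Real.exp ‖w i‖ * 2 with hB
  have hB0 : 0 ≤ B := Finset.sum_nonneg fun i _ => by positivity
  set b : ℕ := ⌈B⌉₊ with hb
  set b' : ℕ := ⌈δ⁻¹⌉₊ with hb'
  set a : ℕ := ⌈‖lam‖⁻¹⌉₊ with ha
  -- the error
  obtain ⟨κ₃, hκ₃⟩ : NE q (fun k => 2 * (tow h (q k) * b) * tow (κ₂ + H) (q k) + b' + 1) :=
    NE.add hq (NE.add hq (NE.mul hq (NE.mul hq (NE.const 2) (NE.mul hq ⟨h, fun _ => le_rfl⟩
      (NE.const b))) ⟨κ₂ + H, fun _ => le_rfl⟩) (NE.const b')) (NE.const 1)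
  obtain ⟨κ₄, hκ₄⟩ : NE q (fun k => 2 * a * tow (κ₂ + H) (q k) + 1) :=
    NE.add hq (NE.mul hq (NE.mul hq (NE.const 2) (NE.const a)) ⟨κ₂ + H, fun _ => le_rfl⟩)
      (NE.const 1)
  choose kw hkw using fun i => hwA i κ₃
  refine ⟨κ₄, univ.sup kw, fun k hk c hc hcB => ?_⟩
  have hkwk : ∀ i, kw i ≤ k := fun i => (le_sup (f := kw) (mem_univ i)).trans hk
  choose w' hw'1 hw'2 using fun i => hkw i k (hkwk i)
  have hq2 := hq k
  have htpos : ∀ m, 0 < ((tow m (q k) : ℕ) : ℝ) := fun m => by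
    have := le_tow m (q k)
    exact_mod_cast (by omega : 0 < tow m (q k))
  have h3k := hκ₃ k
  have h4k := hκ₄ k
  simp only at h3k h4k
  set e : ℝ := ((tow κ₃ (q k) : ℕ) : ℝ)⁻¹ with he
  have he0 : 0 < e := inv_pos.2 (htpos _)
  have heδ : e ≤ δ := by
    rw [he, inv_le_comm₀ (htpos _) hδ0]
    have h1 : δ⁻¹ ≤ b' := Nat.le_ceil _
    exact h1.trans (by exact_mod_cast (by omega : b' ≤ tow κ₃ (q k)))
  have hinj' : Function.Injective w' := by
    intro i j hij
    by_contra hne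
    have h1 := hδw i j hne
    have h2 : w i - w j = (w i - w' i) - (w j - w' j) := by rw [hij]; ring
    have h3 : ‖w i - w j‖ ≤ e + e := by
      rw [h2]
      exact (norm_sub_le _ _).trans (add_le_add (hw'2 i) (hw'2 j))
    linarith
  obtain ⟨i₀, hi₀⟩ : ∃ i, c i ≠ 0 := by
    by_contra hcon
    push Not at hcon
    exact hc (funext hcon)
  have hHq := le_tow H (q k)
  have hhH : tow h (q k) ≤ tow H (q k) := tow_mono_left (by omega) _
  have hcRB : ∀ i, RB (tow H (q k)) (tow H (q k)) ((c i : ℤ) : ℂ) := by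
    intro i
    refine ⟨Polynomial.X - Polynomial.C (c i), Polynomial.X_sub_C_ne_zero _, ?_, fun m => ?_, ?_⟩
    · rw [Polynomial.natDegree_X_sub_C]
      omega
    · rw [Polynomial.coeff_sub, Polynomial.coeff_X, Polynomial.coeff_C]
      have h5 : |c i| ≤ (tow H (q k) : ℤ) := (hcB i).trans (by exact_mod_cast hhH)
      have h6 : (2 : ℤ) ≤ (tow H (q k) : ℤ) := by exact_mod_cast (by omega : 2 ≤ tow H (q k))
      rcases eq_or_ne m 0 with rfl | h0
      · simpa using h5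
      · by_cases h1 : m = 1
        · subst h1
          simp
          omega
        · have h7 : ¬ (1 = m) := fun h => h1 h.symm
          simp [h0, h7]
    · simp
  have hlow := hκ₂ (tow H (q k)) (by omega) n (tow H (q k)) (tow H (q k)) (by omega) le_rfl le_rfl
    w' (fun i => ((c i : ℤ) : ℂ)) hinj' ⟨i₀, by exact_mod_cast hi₀⟩
    (fun i => (hw'1 i).mono (tow_mono_left (hHw i) _) (tow_mono_left (hHw i) _)) hcRB
  rw [tow_tow] at hlow
  have hcR : ∀ i, ‖((c i : ℤ) : ℂ)‖ ≤ tow h (q k) := by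
    intro i
    rw [norm_intCast]
    exact_mod_cast hcB i
  have hdiff : ‖∑ i, ((c i : ℤ) : ℂ) * exp (w' i) - ∑ i, ((c i : ℤ) : ℂ) * exp (w i)‖ ≤
      tow h (q k) * (B * e) := by
    rw [← Finset.sum_sub_distrib, hB, Finset.sum_mul, Finset.mul_sum]
    refine norm_sum_le_of_le _ fun i _ => ?_
    have h2 : ((c i : ℤ) : ℂ) * exp (w' i) - ((c i : ℤ) : ℂ) * exp (w i) =
        ((c i : ℤ) : ℂ) * (exp (w i) * (exp (w' i - w i) - 1)) := by
      rw [mul_sub, ← Complex.exp_add]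
      have : w i + (w' i - w i) = w' i := by ring
      rw [this]
      ring
    rw [h2, norm_mul, norm_mul]
    have h3 : ‖w' i - w i‖ ≤ e := by rw [norm_sub_rev]; exact hw'2 i
    have h6 : ‖exp (w' i - w i) - 1‖ ≤ 2 * e :=
      (Complex.norm_exp_sub_one_le (by linarith)).trans (by linarith)
    have h7 : ‖exp (w i)‖ ≤ Real.exp ‖w i‖ := Complex.norm_exp_le_exp_norm _
    have h8 : ‖exp (w i)‖ * ‖exp (w' i - w i) - 1‖ ≤ Real.exp ‖w i‖ * (2 * e) :=
      mul_le_mul h7 h6 (norm_nonneg _) (Real.exp_pos _).le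
    calc _ ≤ (tow h (q k) : ℝ) * (Real.exp ‖w i‖ * (2 * e)) :=
          mul_le_mul (hcR i) h8 (by positivity) (Nat.cast_nonneg _)
      _ = _ := by ring
  set S : ℂ := ∑ i, ((c i : ℤ) : ℂ) * exp (w i) with hS
  set S' : ℂ := ∑ i, ((c i : ℤ) : ℂ) * exp (w' i) with hS'
  set T : ℝ := ((tow (κ₂ + H) (q k) : ℕ) : ℝ) with hT
  have hT0 : 0 < T := htpos _
  -- the error is at most `1 / (2 T)`
  have herr : (tow h (q k) : ℝ) * (B * e) ≤ (2 * T)⁻¹ := by
    have h5 : 2 * ((tow h (q k) : ℝ) * B) * T ≤ tow κ₃ (q k) := by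
      have h6 : (2 : ℝ) * ((tow h (q k) : ℝ) * b) * T ≤ tow κ₃ (q k) := by
        have h7 : 2 * (tow h (q k) * b) * tow (κ₂ + H) (q k) ≤ tow κ₃ (q k) := by omega
        rw [hT]
        exact_mod_cast h7
      refine le_trans ?_ h6
      have h8 : B ≤ b := Nat.le_ceil _
      gcongr
    rw [he, ← mul_assoc, ← div_eq_mul_inv, div_le_iff₀ (htpos _), inv_mul_eq_div,
      le_div_iff₀ (by positivity)]
    linarith
  have hSlow : (2 * T)⁻¹ ≤ ‖S‖ := by
    have h5 : ‖S'‖ ≤ ‖S' - S‖ + ‖S‖ := by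
      have := norm_add_le (S' - S) S
      rwa [sub_add_cancel] at this
    have h6 : T⁻¹ = (2 * T)⁻¹ + (2 * T)⁻¹ := by
      rw [mul_inv]
      ring
    linarith
  have hsum : ∑ m, (c m : ℂ) * (lam * exp (w m)) = lam * S := by
    rw [hS, mul_sum]
    refine sum_congr rfl fun m _ => ?_
    ring
  rw [hsum, norm_mul]
  have hl0 : 0 < ‖lam‖ := norm_pos_iff.2 hlam
  refine lt_of_lt_of_le ?_ (mul_le_mul_of_nonneg_left hSlow hl0.le)
  have h5 : 2 * (a : ℝ) * T + 1 ≤ tow κ₄ (q k) := by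
    rw [hT]
    exact_mod_cast h4k
  have h6 : ‖lam‖⁻¹ ≤ a := Nat.le_ceil _
  have h7 : ‖lam‖⁻¹ * (2 * T) < tow κ₄ (q k) := by nlinarith
  rw [inv_lt_comm₀ (htpos _) (by positivity), mul_inv, inv_inv]
  exact h7

/-- The exponential of a nonzero well approximable number is not well approximable. -/
theorem exp_notMem {w : ℂ} (hw : Appr q w) (hw0 : w ≠ 0) : ¬ Appr q (exp w) := by
  intro h
  have h1 := lwU hq 2 ![0, w] ![-exp w, 1] (by
      intro i
      fin_cases i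
      · exact Appr.zero hq
      · exact hw) (by
      intro i
      fin_cases i
      · have h2 := (appr_int hq (-1)).mul hq h
        have h3 : ((-1 : ℤ) : ℂ) * exp w = -exp w := by push_cast; ring
        rw [h3] at h2
        exact h2
      · exact Appr.one hq) (by
      intro i j hij
      fin_cases i <;> fin_cases j
      · rfl
      · exact absurd hij.symm hw0
      · exact absurd hij hw0
      · rfl) (by
      rw [Fin.sum_univ_two]
      simp)
  have h2 := h1 1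
  simp at h2

end Pool.Agent.Helper67.FN
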