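import Pool.Agent.Helper67.FN.Low
import Pool.Graph.R_seed8.R347.GS.Struct

/-!
# Thin sets of exponents
-/

set_option autoImplicit false

namespace Pool.Agent.Helper67.FN

open Finset Complex
open scoped Pointwise
open Pool.Agent.R347.LW Pool.Agent.R347.SX

/-- Translates of `T` by `δ ≠ 0` have at most two points in common with `T`. -/
def Small {G : Type} [AddCommGroup G] (T : Set G) : Prop :=
  ∀ δ : G, δ ≠ 0 → {g | g ∈ T ∧ g + δ ∈ T}.encard ≤ 2

section count

variable {G : Type} [AddCommGroup G] {T : Set G}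

/-- a set without three different elements -/
theorem encard_le_two {α : Type} {S : Set α}
    (h : ∀ a b c : α, a ≠ b → a ≠ c → b ≠ c → a ∈ S → b ∈ S → c ∈ S → False) : S.encard ≤ 2 := by
  by_contra hcon
  rw [not_le] at hcon
  have h1 : (3 : ℕ∞) ≤ S.encard := by
    have h2 := Order.add_one_le_of_lt hcon
    have h3 : (2 : ℕ∞) + 1 = 3 := by norm_num
    rwa [h3] at h2
  obtain ⟨R, hR, hR3⟩ := Set.exists_subset_encard_eq h1
  obtain ⟨a, b, c, hab, hac, hbc, rfl⟩ := Set.encard_eq_three.1 hR3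
  exact h a b c hab hac hbc (hR (by simp)) (hR (by simp)) (hR (by simp))

theorem Small.fib (h : Small T) {δ : G} (hδ : δ ≠ 0) (B : Finset G)
    (hB : ∀ b ∈ B, b ∈ T ∧ b + δ ∈ T) : B.card ≤ 2 := by
  have h4 := h δ hδ
  have h5 : (B : Set G) ⊆ {g | g ∈ T ∧ g + δ ∈ T} := fun x hx => hB x hx
  have h6 := (Set.encard_le_encard h5).trans h4
  rw [Set.encard_coe_eq_coe_finsetCard] at h6
  exact_mod_cast h6

theorem small_iff : Small T ↔ ∀ δ : G, δ ≠ 0 → ∀ a b c : G, a ≠ b → a ≠ c → b ≠ c →
    a ∈ T ∧ a + δ ∈ T → b ∈ T ∧ b + δ ∈ T → c ∈ T ∧ c + δ ∈ T → False := by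
  classical
  constructor
  · intro h δ hδ a b c h1 h2 h3 ha hb hc
    have h6 := h.fib hδ {a, b, c} (by
      intro x hx
      rw [Finset.mem_insert, Finset.mem_insert, Finset.mem_singleton] at hx
      rcases hx with rfl | rfl | rfl
      exacts [ha, hb, hc])
    have h7 : ({a, b, c} : Finset G).card = 3 := by
      rw [Finset.card_eq_three]
      exact ⟨a, b, c, h1, h2, h3, rfl⟩
    rw [h7] at h6
    exact absurd h6 (by decide)
  · intro h δ hδ
    exact encard_le_two (h δ hδ)

/-- counting in finite sets -/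
theorem Small.card [DecidableEq G] (hT : Small T) (A : Finset G) (hA : ∀ a ∈ A, a ∈ T) :
    A.card * (A.card - 1) ≤ 2 * ((A - A).card - 1) := by
  rcases A.eq_empty_or_nonempty with rfl | hne
  · simp
  have h0 : (0 : G) ∈ A - A := by
    obtain ⟨a, ha⟩ := hne
    rw [Finset.mem_sub]
    exact ⟨a, ha, a, ha, sub_self a⟩
  have h1 : A.offDiag.card ≤ 2 * ((A - A).erase 0).card := by
    refine Finset.card_le_mul_card_image_of_maps_to (f := fun p : G × G => p.2 - p.1) ?_ 2 ?_
    · intro p hp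
      rw [Finset.mem_offDiag] at hp
      rw [Finset.mem_erase]
      exact ⟨sub_ne_zero.2 (Ne.symm hp.2.2), Finset.sub_mem_sub hp.2.1 hp.1⟩
    · intro δ hδ
      rw [Finset.mem_erase] at hδ
      have h2 := hT.fib hδ.1 ((A.offDiag.filter fun p => p.2 - p.1 = δ).image Prod.fst) (by
        intro b hb
        rw [Finset.mem_image] at hb
        obtain ⟨p, hp, rfl⟩ := hb
        rw [Finset.mem_filter, Finset.mem_offDiag] at hp
        refine ⟨hA _ hp.1.1, ?_⟩
        rw [← hp.2]
        have : p.1 + (p.2 - p.1) = p.2 := by abel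
        rw [this]
        exact hA _ hp.1.2.1)
      rwa [Finset.card_image_of_injOn] at h2
      intro x hx y hy hxy
      rw [Finset.mem_coe, Finset.mem_filter] at hx hy
      have h3 : x.2 = y.2 := by
        have h4 := hx.2.trans hy.2.symm
        rw [hxy] at h4
        exact sub_left_injective h4
      exact Prod.ext hxy h3
  rw [Finset.offDiag_card, Finset.card_erase_of_mem h0] at h1
  have h5 : A.card * (A.card - 1) = A.card * A.card - A.card := by
    rw [Nat.mul_sub, mul_one]
  omega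

/-- counting in arithmetic progressions -/
theorem Small.progression [IsAddTorsionFree G] (hT : Small T) (g δ : G) (hδ : δ ≠ 0) (N : ℕ)
    (S : Finset ℕ) (hS : ∀ n ∈ S, n < N ∧ g + n • δ ∈ T) :
    (S.card : ℝ) ≤ 2 * Real.sqrt N + 1 := by
  classical
  have hT' : Small {n : ℤ | g + n • δ ∈ T} := by
    rw [small_iff]
    intro m hm a b c hab hac hbc ha hb hc
    have hinj : ∀ x y : ℤ, x ≠ y → g + x • δ ≠ g + y • δ := by
      intro x y hxy h
      have h1 : x • δ = y • δ := add_left_cancel h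
      have h2 : (x - y) • δ = 0 := by rw [sub_smul, h1, sub_self]
      rcases smul_eq_zero.1 h2 with h3 | h3
      · exact hxy (sub_eq_zero.1 h3)
      · exact hδ h3
    have hmδ : m • δ ≠ 0 := by
      intro h
      rcases smul_eq_zero.1 h with h3 | h3
      · exact hm h3
      · exact hδ h3
    have key : ∀ x : ℤ, g + (x + m) • δ = (g + x • δ) + m • δ := by
      intro x
      rw [add_smul, add_assoc]
    have h1 := small_iff.1 hT (m • δ) hmδ (g + a • δ) (g + b • δ) (g + c • δ) (hinj a b hab)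
      (hinj a c hac) (hinj b c hbc)
    refine h1 ⟨ha.1, ?_⟩ ⟨hb.1, ?_⟩ ⟨hc.1, ?_⟩
    · rw [← key]; exact ha.2
    · rw [← key]; exact hb.2
    · rw [← key]; exact hc.2
  have h1 := hT'.card (S.image fun n : ℕ => (n : ℤ)) (by
    intro a ha
    rw [Finset.mem_image] at ha
    obtain ⟨n, hn, rfl⟩ := ha
    have := (hS n hn).2
    rw [Set.mem_ofPred_eq, natCast_zsmul]
    exact this)
  rw [Finset.card_image_of_injective _ Nat.cast_injective] at h1
  rcases Nat.eq_zero_or_pos N with rfl | hN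
  · have hS0 : S = ∅ := by
      rw [Finset.eq_empty_iff_forall_notMem]
      intro n hn
      exact absurd (hS n hn).1 (Nat.not_lt_zero _)
    rw [hS0]
    simp
  have h2 : ((S.image fun n : ℕ => (n : ℤ)) - (S.image fun n : ℕ => (n : ℤ))).card ≤ 2 * N - 1 := by
    have h3 : (S.image fun n : ℕ => (n : ℤ)) - (S.image fun n : ℕ => (n : ℤ)) ⊆
        Finset.Ioo (-(N : ℤ)) N := by
      intro x hx
      rw [Finset.mem_sub] at hx
      obtain ⟨a, ha, b, hb, rfl⟩ := hx
      rw [Finset.mem_image] at ha hb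
      obtain ⟨n, hn, rfl⟩ := ha
      obtain ⟨m, hm, rfl⟩ := hb
      have h4 := (hS n hn).1
      have h5 := (hS m hm).1
      rw [Finset.mem_Ioo]
      constructor <;> omega
    refine (Finset.card_le_card h3).trans ?_
    rw [Int.card_Ioo]
    omega
  have h6 : S.card * (S.card - 1) ≤ 4 * N := by omega
  have h7 : ((S.card : ℝ) - 1) ^ 2 ≤ 4 * N := by
    rcases Nat.eq_zero_or_pos S.card with h8 | h8
    · rw [h8]
      have : (1 : ℝ) ≤ N := by exact_mod_cast hN
      push_cast
      nlinarith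
    · have h9 : ((S.card - 1 : ℕ) : ℝ) = (S.card : ℝ) - 1 := by
        rw [Nat.cast_sub h8, Nat.cast_one]
      have h10 : (S.card : ℝ) * ((S.card : ℝ) - 1) ≤ 4 * N := by
        rw [← h9]
        exact_mod_cast h6
      have h11 : (1 : ℝ) ≤ S.card := by exact_mod_cast h8
      nlinarith
  have h8 : (S.card : ℝ) - 1 ≤ Real.sqrt (4 * N) := Real.le_sqrt_of_sq_le h7
  have h9 : Real.sqrt (4 * N) = 2 * Real.sqrt N := by
    rw [Real.sqrt_mul (by norm_num)]
    have : Real.sqrt 4 = 2 := by
      rw [show (4 : ℝ) = 2 ^ 2 by norm_num]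
      exact Real.sqrt_sq (by norm_num)
    rw [this]
  rw [h9] at h8
  linarith

end count

variable {q : ℕ → ℕ} (hq : ∀ k, 2 ≤ q k)

include hq

/-- The exponents `g` with `e ^ (lam χ(g))` well approximable, for a character `χ`. -/
theorem small_char {G : Type} [AddCommGroup G] (χ : G → ℂ) (hχ : ∀ a b, χ (a + b) = χ a * χ b)
    (hR : ∀ δ, δ ≠ 0 → ¬ ∃ x : ℝ, RAppr q x ∧ χ δ = x)
    (hlow : ∀ lam : ℂ, lam ≠ 0 → ∀ w : Fin 3 → G, Function.Injective w →
      Low q (fun i => lam * χ (w i))) (lam : ℂ) (hlam : lam ≠ 0) :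
    Small {g | Appr q (exp (lam * χ g))} := by
  rw [small_iff]
  intro δ hδ a b c hab hac hbc ha hb hc
  have hw : Function.Injective ![a, b, c] := by
    intro i j hij
    fin_cases i <;> fin_cases j <;> simp at hij ⊢
    · exact hab hij
    · exact hac hij
    · exact hab hij.symm
    · exact hbc hij
    · exact hac hij.symm
    · exact hbc hij.symm
  refine hR δ hδ (six hq (χ δ) _ (hlow lam hlam ![a, b, c] hw) ?_ ?_)
  · intro m
    fin_cases m
    · exact ha.1
    · exact hb.1
    · exact hc.1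
  · have key : ∀ g : G, χ δ * (lam * χ g) = lam * χ (g + δ) := by
      intro g
      rw [hχ]
      ring
    intro m
    rw [key]
    fin_cases m
    · exact ha.2
    · exact hb.2
    · exact hc.2

/-- Two multiples with a ratio outside of `R`. -/
theorem two_char {G : Type} (χ : G → ℂ)
    (hlow : ∀ lam : ℂ, lam ≠ 0 → ∀ w : Fin 3 → G, Function.Injective w →
      Low q (fun i => lam * χ (w i))) (lam mu : ℂ) (hlam : lam ≠ 0)
    (h : ¬ ∃ x : ℝ, RAppr q x ∧ mu = x * lam) :
    {g | Appr q (exp (lam * χ g)) ∧ Appr q (exp (mu * χ g))}.encard ≤ 2 := by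
  refine encard_le_two fun a b c hab hac hbc ha hb hc => ?_
  have hw : Function.Injective ![a, b, c] := by
    intro i j hij
    fin_cases i <;> fin_cases j <;> simp at hij ⊢
    · exact hab hij
    · exact hac hij
    · exact hab hij.symm
    · exact hbc hij
    · exact hac hij.symm
    · exact hbc hij.symm
  apply h
  obtain ⟨x, hx, hx2⟩ := six hq (mu / lam) _ (hlow lam hlam ![a, b, c] hw) (by
    intro m
    fin_cases m
    · exact ha.1
    · exact hb.1
    · exact hc.1) (by
    have key : ∀ g : G, mu / lam * (lam * χ g) = mu * χ g := by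
      intro g
      field_simp
    intro m
    rw [key]
    fin_cases m
    · exact ha.2
    · exact hb.2
    · exact hc.2)
  refine ⟨x, hx, ?_⟩
  rw [← hx2]
  field_simp

/-- Two multiples with a ratio in `R`. -/
theorem same_char (lam mu : ℂ) (hmu : mu ≠ 0)
    (h : ∃ x : ℝ, RAppr q x ∧ mu = x * lam) (z : ℂ) :
    Appr q (exp (lam * z)) ↔ Appr q (exp (mu * z)) := by
  obtain ⟨x, hx, rfl⟩ := h
  have hx0 : (x : ℂ) ≠ 0 := left_ne_zero_of_mul hmu
  have hx0' : x ≠ 0 := by
    intro h0
    rw [h0] at hx0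
    exact hx0 rfl
  constructor
  · intro h
    rw [mul_assoc]
    exact Appr.rpow hq h hx
  · intro h
    have h1 : RAppr q (x⁻¹) := (UR hq).inv_mem (x := x) hx
    have h2 := Appr.rpow hq h h1
    have h3 : ((x⁻¹ : ℝ) : ℂ) * ((x : ℂ) * lam * z) = lam * z := by
      push_cast
      field_simp
    rwa [h3] at h2

/-- the exponential function on the field `K` -/
theorem low_K (lam : ℂ) (hlam : lam ≠ 0) (w : Fin 3 → UK hq) (hw : Function.Injective w) :
    Low q (fun i => lam * exp ((w i : UK hq) : ℂ)) :=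
  low_exp hq (fun i => ((w i : UK hq) : ℂ)) (fun i => (w i).2)
    (fun _ _ h => hw (Subtype.ext h)) lam hlam

omit hq in
/-- the rational powers of `t > 0` -/
theorem low_rpow {t : ℝ} (ht : 0 < t) (hfar : Far (t : ℂ)) (hq : ∀ k, 2 ≤ q k) (lam : ℂ)
    (hlam : lam ≠ 0) (w : Fin 3 → ℚ) (hw : Function.Injective w) :
    Low q (fun i => lam * (((t ^ ((w i : ℚ) : ℝ) : ℝ)) : ℂ)) := by
  classical
  -- a common denominator
  set m : ℕ := ∏ i, (w i).den with hm
  have hm0 : 0 < m := Finset.prod_pos fun i _ => (w i).den_pos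
  have h1 : ∀ i, ∃ a : ℤ, w i = a / m := by
    intro i
    have h2 : (w i).den ∣ m := Finset.dvd_prod_of_mem (fun i => (w i).den) (Finset.mem_univ i)
    obtain ⟨d, hd⟩ := h2
    refine ⟨(w i).num * d, ?_⟩
    have hd0 : (d : ℚ) ≠ 0 := by
      intro h
      have : d = 0 := by exact_mod_cast h
      rw [this, mul_zero] at hd
      omega
    rw [hd]
    push_cast
    rw [mul_div_mul_right _ _ hd0, Rat.num_div_den]
  choose a ha using h1
  set B : ℤ := ∑ i, |a i| with hB
  have hBa : ∀ i, 0 ≤ a i + B := by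
    intro i
    have h2 : |a i| ≤ B := Finset.single_le_sum (f := fun i => |a i|) (fun _ _ => abs_nonneg _)
      (Finset.mem_univ i)
    have h3 := neg_abs_le (a i)
    omega
  have h4 : ∀ i, ∃ e : ℕ, (e : ℤ) = a i + B := fun i => ⟨(a i + B).toNat, Int.toNat_of_nonneg (hBa i)⟩
  choose e he using h4
  set s : ℝ := t ^ ((1 : ℝ) / m) with hs
  have hs0 : 0 < s := Real.rpow_pos_of_pos ht _
  have hmR : (m : ℝ) ≠ 0 := by exact_mod_cast hm0.ne'
  have hsm : s ^ m = t := by
    rw [hs, ← Real.rpow_natCast, ← Real.rpow_mul ht.le, one_div, inv_mul_cancel₀ hmR, Real.rpow_one]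
  have hsfar : Far (s : ℂ) := by
    intro q hq h
    apply hfar q hq
    rw [← hsm]
    push_cast
    exact (UK hq).pow_mem (x := (s : ℂ)) h m
  have h5 := far_low hsfar (fun i => (Polynomial.X : Polynomial ℤ) ^ e i) (by
    intro c hc
    have hinj : Function.Injective e := by
      intro i j hij
      apply hw
      have h6 : a i = a j := by
        have h7 := he i
        rw [hij, he j] at h7
        omega
      rw [ha i, ha j, h6]
    funext i
    have h6 := congrArg (fun P : Polynomial ℤ => P.coeff (e i)) hc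
    simp only [Polynomial.finsetSum_coeff, Polynomial.coeff_C_mul, Polynomial.coeff_X_pow,
      Polynomial.coeff_zero] at h6
    rw [Finset.sum_eq_single i] at h6
    · simpa using h6
    · intro j _ hji
      have : e i ≠ e j := fun h => hji (hinj h).symm
      simp [this]
    · intro h
      exact absurd (Finset.mem_univ i) h) (lam * ((s ^ (-B) : ℝ) : ℂ)) (by
    refine mul_ne_zero hlam ?_
    exact_mod_cast (zpow_pos hs0 _).ne') hq
  have h6 : (fun i => lam * (((t ^ ((w i : ℚ) : ℝ) : ℝ)) : ℂ)) =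
      fun i => (lam * ((s ^ (-B) : ℝ) : ℂ)) * Polynomial.aeval (s : ℂ) ((Polynomial.X : Polynomial ℤ) ^ e i) := by
    funext i
    rw [map_pow, Polynomial.aeval_X, mul_assoc]
    congr 1
    rw [← Complex.ofReal_pow, ← Complex.ofReal_mul]
    congr 1
    rw [← zpow_natCast, ← zpow_add₀ hs0.ne', he i, hs, ← Real.rpow_intCast, ← Real.rpow_mul ht.le,
      ha i]
    congr 1
    push_cast
    field_simp
    ring
  rw [h6]
  exact h5

/-- the rational powers of `t > 0` are not in `R` -/
theorem rpow_notR {t : ℝ} (ht : 0 < t) (hfar : Far (t : ℂ)) (δ : ℚ) (hδ : δ ≠ 0) :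
    ¬ ∃ x : ℝ, RAppr q x ∧ (((t ^ ((δ : ℚ) : ℝ) : ℝ)) : ℂ) = x := by
  rintro ⟨x, hx, h⟩
  apply hfar q hq
  have h1 : Appr q (exp ((δ : ℂ) * ((Real.log t : ℝ) : ℂ))) := by
    have h2 : exp ((δ : ℂ) * ((Real.log t : ℝ) : ℂ)) = (x : ℂ) := by
      rw [← h, Real.rpow_def_of_pos ht]
      push_cast
      congr 1
      ring
    rw [h2]
    exact RAppr.appr hq hx
  have h3 := Appr.rpow hq h1 (RAppr.rat (q := q) δ⁻¹)
  have h4 : ((((δ⁻¹ : ℚ) : ℝ)) : ℂ) * ((δ : ℂ) * ((Real.log t : ℝ) : ℂ)) = ((Real.log t : ℝ) : ℂ) := by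
    have : (δ : ℂ) ≠ 0 := by exact_mod_cast hδ
    push_cast
    field_simp
  rw [h4, ← Complex.ofReal_exp, Real.exp_log ht] at h3
  exact h3

end Pool.Agent.Helper67.FN
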